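import Mathlib
import Pool.Agent.H19.Maass.Defs
import Pool.Agent.H19.WB.GlueB

set_option autoImplicit false

/-!
# Almost all Hecke-Maass forms of a unit window are below `T^(3/8)`

For `0 ≤ δ ≤ 10^(-6)`: in every unit window of the spectrum all but `O(T^(1/2 + 4 δ + ε))` Hecke-Maass cusp forms (of about
`T/6`) satisfy `sup_K |U| ≤ C T^(3/8 - δ)`.  The definitions `IsHeckeMaass` and `OrthForms` are in
`Pool/Agent/H19/Maass/Defs.lean`; the first one consists, word for word, of the hypotheses on the form in the frozen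
statement S17743.

Method.  A form exceeding the bound has small Hecke eigenvalues at almost all primes of two ranges beyond `T^(1/4)`: there
amplification with primes needs cancellation in the sum of `A(d) exp(i T d)` over the distances `d` between Hecke points
(Cauchy-Schwarz, planes and lines of Hecke points, van der Corput's `k`-th derivative test).  Such forms are counted by a
spectral large sieve of length `4096 N⁴`, beyond `T`, proved from Bessel's inequality in strips of height `Y < 1`.
-/

namespace Pool.Agent.Results.MP_8fded1_nt.AlmostAll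

open Pool.Agent.H19.Maass

/-- **Density of Hecke-Maass forms with large values in unit windows, below the exponent `3/8`.** -/
theorem result :
    ∀ K : Set ℂ, IsCompact K → K ⊆ {z : ℂ | 0 < z.im} → ∀ δ ε : ℝ, 0 ≤ δ → δ ≤ 1 / 10 ^ 6 → 0 < ε →
    ∃ C : ℝ, ∀ T : ℝ, 1 ≤ T →
    ∀ (n : ℕ) (t : Fin n → ℝ) (U : Fin n → ℂ → ℂ),
    (∀ j, T ≤ t j ∧ t j ≤ T + 1) →
    (∀ j, IsHeckeMaass (t j) (U j)) →
    (∀ i j, i ≠ j → OrthForms (U i) (U j)) →
    (∀ j, ∃ z ∈ K, C * T ^ (3 / 8 - δ) < ‖U j z‖) →
    (n : ℝ) ≤ C * T ^ (1 / 2 + 4 * δ + ε) :=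
  Pool.Agent.H19.WB.almost_all

end Pool.Agent.Results.MP_8fded1_nt.AlmostAll
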