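import Mathlib
import Pool.Agent.H19.Maass.Defs
import Pool.Agent.H19.AE.Main

set_option autoImplicit false

/-!
# Hecke-Maass forms at almost every point

Let `1 ≤ θ ≤ 2`, `a > (1 + θ) / (4 θ)` (for `θ = 2`: every `a > 3 / 8`), and let `ν` be a measure with
`ν (B(w, ρ)) ≤ B ρ ^ θ` (for example, for `θ = 2`, the area).  For every sequence of pairwise orthogonal Hecke-Maass forms `U_j`
with spectral parameters `t_j` the bound `|U_j(z)| ≤ C_z t_j ^ a` holds for all `j` at `ν`-almost every `z`; the first part of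
the theorem bounds the measure of the set of the points of a compact set where `|U_j(z)| ≤ C t_j ^ a` fails for some `t_j ≥ X`,
with `C` independent of the sequence.  The definitions `IsHeckeMaass` and `OrthForms` are in `Pool/Agent/H19/Maass/Defs.lean`;
the first one consists, word for word, of the hypotheses on the form in the frozen statement S17743.
-/

namespace Pool.Agent.Results.MP_8fded1_nt.AlmostEveryPoint

open Pool.Agent.H19.Maass MeasureTheory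

/-- **All forms at almost every point.** -/
theorem result :
    ∀ θ a : ℝ, 1 ≤ θ → θ ≤ 2 → (1 + θ) / (4 * θ) < a →
    (∀ K : Set ℂ, IsCompact K → K ⊆ {z : ℂ | 0 < z.im} → ∀ ε : ℝ, 0 < ε →
      ∃ C : ℝ, ∀ (ν : Measure ℂ) (B : ℝ), 0 ≤ B →
      (∀ w : ℂ, ∀ ρ : ℝ, 0 < ρ → ν (Metric.closedBall w ρ) ≤ ENNReal.ofReal (B * ρ ^ θ)) →
      ∀ (t : ℕ → ℝ) (U : ℕ → ℂ → ℂ), (∀ j, IsHeckeMaass (t j) (U j)) →
      (∀ i j, i ≠ j → OrthForms (U i) (U j)) → ∀ X : ℝ, 1 ≤ X →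
      ν {z | z ∈ K ∧ ∃ j, X ≤ t j ∧ C * (t j) ^ a < ‖U j z‖} ≤
        ENNReal.ofReal (C * B * X ^ (3 * (1 + θ) / 2 - 6 * θ * a + ε))) ∧
    ∀ (ν : Measure ℂ) (B : ℝ), 0 ≤ B →
      (∀ w : ℂ, ∀ ρ : ℝ, 0 < ρ → ν (Metric.closedBall w ρ) ≤ ENNReal.ofReal (B * ρ ^ θ)) →
      ∀ (t : ℕ → ℝ) (U : ℕ → ℂ → ℂ), (∀ j, 1 ≤ t j) → (∀ j, IsHeckeMaass (t j) (U j)) →
      (∀ i j, i ≠ j → OrthForms (U i) (U j)) →
      ∀ᵐ z ∂ν, 0 < z.im → ∃ C : ℝ, ∀ j, ‖U j z‖ ≤ C * (t j) ^ a := by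
  intro θ a hθ hθ2 ha
  refine ⟨fun K hK hKU ε hε => ?_, fun ν B hB hν t U ht hU ho =>
    Pool.Agent.H19.AE.almost_every_point θ a hθ hθ2 ha ν B hB hν t U ht hU ho⟩
  obtain ⟨C, -, hC⟩ := Pool.Agent.H19.AE.large_points K hK hKU θ a ε hθ hθ2 ha hε
  exact ⟨C, hC⟩

end Pool.Agent.Results.MP_8fded1_nt.AlmostEveryPoint
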