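import Mathlib
import Pool.Agent.H19.Maass.Defs
import Pool.Agent.H19.WB.GlueA

/-!
# Sup norms of Hecke-Maass cusp forms: the exponent 5/12 - 1/10^7, for every form, and in sixth mean over unit windows

Definitions used (file `Pool/Agent/H19/Maass/Defs.lean`):

* `IsHeckeMaass T U` is, word for word, the list of hypotheses on `U` in the frozen statement
  S17743: `U` is an `L²`-normalised Hecke-Maass cusp form for `SL₂(ℤ)` of eigenvalue `1/4 + T²`.
* `OrthForms U W` says that `U` and `W` are orthogonal over the standard fundamental domain.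

The first part of the conclusion is below the exponent `5/12` of Iwaniec and Sarnak for every form; the second part says that
the sixth powers of the values at `z` of all forms of a unit window (about `T/6` forms) together satisfy the same bound; the
first part is its case `n = 1`.

Method.  Forms with large Hecke eigenvalues at primes and forms with small ones are counted separately, with amplifiers on
primes and on squares of primes; in both cases the geometric side is a sum of `A(d) exp(i T d)` over the distances `d` between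
Hecke points, and we find cancellation there: Cauchy-Schwarz leads to sums over all Hecke points `v` of the phases
`d(W, v) - d(W', v)`; these points split into planes and lines, to which van der Corput's `k`-th derivative test applies, with a
nondegeneracy estimate valid for all pairs `W ≠ W'`.
-/

set_option autoImplicit false

namespace Pool.Agent.Results.MP_8fded1_nt.BelowIwaniecSarnak

open Pool.Agent.H19.Maass

theorem result :
    ∀ K : Set ℂ, IsCompact K → K ⊆ {z : ℂ | 0 < z.im} → ∃ C : ℝ, ∀ T : ℝ, 1 ≤ T →
      (∀ U : ℂ → ℂ, IsHeckeMaass T U → ∀ z ∈ K, ‖U z‖ ≤ C * T ^ (5 / 12 - 1 / 10 ^ 7 : ℝ)) ∧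
      ∀ (n : ℕ) (t : Fin n → ℝ) (U : Fin n → ℂ → ℂ),
        (∀ j, T ≤ t j ∧ t j ≤ T + 1) → (∀ j, IsHeckeMaass (t j) (U j)) →
        (∀ i j, i ≠ j → OrthForms (U i) (U j)) →
        ∀ z ∈ K, ∑ j, ‖U j z‖ ^ 6 ≤ C * T ^ (5 / 2 - 6 / 10 ^ 7 : ℝ) := by
  intro K hK hKU
  obtain ⟨C, hC⟩ := Pool.Agent.H19.WB.window_sixth K hK hKU
  refine ⟨max C 1, fun T hT => ⟨fun U hU z hz => ?_, fun n t U h1 h2 h3 z hz => ?_⟩⟩
  · have h := hC T hT 1 (fun _ => T) (fun _ => U) (fun _ => ⟨le_rfl, by linarith⟩) (fun _ => hU)
      (fun i j hij => absurd (Subsingleton.elim i j) hij) z hz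
    simp only [Finset.univ_unique, Finset.sum_const, Finset.card_singleton, one_smul] at h
    have hT0 : 0 < T := by linarith
    have h1 : 0 ≤ max C 1 * T ^ (5 / 12 - 1 / 10 ^ 7 : ℝ) :=
      mul_nonneg (le_trans zero_le_one (le_max_right _ _)) (Real.rpow_nonneg hT0.le _)
    refine le_of_pow_le_pow_left₀ (n := 6) (by norm_num) h1 (h.trans ?_)
    rw [mul_pow, ← Real.rpow_natCast (T ^ _), ← Real.rpow_mul hT0.le]
    have h2 : C ≤ (max C 1) ^ 6 := (le_max_left _ _).trans (le_self_pow₀ (le_max_right _ _) (by norm_num))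
    have h3 : ((5 / 12 - 1 / 10 ^ 7 : ℝ) * ((6 : ℕ) : ℝ)) = 5 / 2 - 6 / 10 ^ 7 := by norm_num
    rw [h3]
    exact mul_le_mul_of_nonneg_right h2 (Real.rpow_nonneg hT0.le _)
  · exact (hC T hT n t U h1 h2 h3 z hz).trans
      (mul_le_mul_of_nonneg_right (le_max_left _ _) (Real.rpow_nonneg (by linarith) _))

end Pool.Agent.Results.MP_8fded1_nt.BelowIwaniecSarnak
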