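import Mathlib
import Pool.Agent.H19.Maass.Frostman

set_option autoImplicit false

/-!
# Bounds for Hecke-Maass forms against measures of dimension at least one

If a measure `ν` satisfies `ν (B(w, ρ)) ≤ B ρ ^ θ` at all scales `ρ ≥ 1 / T`, then the
`L^(6θ)`-norm of a Hecke-Maass form of spectral parameter `T` with respect to `ν` is at most
`T ^ (1/4 + ε)` on compact sets.  The definition `IsHeckeMaass` is in
`Pool/Agent/H19/Maass/Defs.lean`; it consists, word for word, of the hypotheses on the form in the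
frozen statement S17743.
-/

namespace Pool.Agent.Results.MP_8fded1_nt.FrostmanLp

open Pool.Agent.H19.Maass MeasureTheory

/-- **`L^(6θ)` bound against `θ`-dimensional measures.** -/
theorem result :
    ∀ K : Set ℂ, IsCompact K → K ⊆ {z : ℂ | 0 < z.im} → ∀ θ : ℝ, 1 ≤ θ → ∀ ε : ℝ, 0 < ε →
    ∃ C : ℝ, ∀ T : ℝ, 1 ≤ T → ∀ U : ℂ → ℂ, IsHeckeMaass T U →
    ∀ (ν : Measure ℂ) (B : ℝ), 0 ≤ B →
    (∀ w : ℂ, ∀ ρ : ℝ, 1 / T ≤ ρ →
      ν (Metric.closedBall w ρ) ≤ ENNReal.ofReal (B * ρ ^ θ)) →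
    ∫⁻ z in K, ENNReal.ofReal (‖U z‖ ^ (6 * θ)) ∂ν ≤
      ENNReal.ofReal (C * B * T ^ (3 * θ / 2 + ε)) :=
  fun K hK hKU θ hθ ε hε => frostman K hK hKU θ hθ ε hε

end Pool.Agent.Results.MP_8fded1_nt.FrostmanLp
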